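import Pool.Agent.R502.BL.Prop2

/-!
# Chowla's conjecture for many classes of every modulus: the proportion for the exponent `1 + κ`

Proof: the prime number theorem and the Brun-Titchmarsh inequality with `log (x / m ^ (1/2))` for all but few classes.
From Mathlib: `Nat.totient`: Euler's function; `[MOD m]`: congruence modulo `m`; `Set.ncard`: number of elements.
-/

set_option autoImplicit false

namespace Pool.Agent.Results.MP_42948a_nt.EveryModulusProportion

/-- For all `κ > 0` and `ε > 0`, and every large modulus `m`: at least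
`((1 + 2 κ) / (4 (1 + κ)) - ε) φ(m)` of the reduced classes `a` modulo `m` contain a prime `p < m ^ (1 + κ)`
(thus at least `(3/8 - ε) φ(m)` classes a prime `p < m ^ 2`). -/
theorem result (κ ε : ℝ) (hκ : 0 < κ) (hε : 0 < ε) : ∃ m₀ : ℕ, ∀ m : ℕ, m₀ ≤ m →
    ((1 + 2 * κ) / (4 * (1 + κ)) - ε) * (Nat.totient m : ℝ) ≤
      ({a : ℕ | a < m ∧ a.Coprime m ∧
        ∃ p : ℕ, p.Prime ∧ p ≡ a [MOD m] ∧ (p : ℝ) < (m : ℝ) ^ (1 + κ)}.ncard : ℝ) := by
  obtain ⟨m₀, h⟩ := Filter.eventually_atTop.1 (Pool.Agent.R502.BL.prop_all κ ε hκ hε)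
  refine ⟨m₀, fun m hm => ?_⟩
  rw [Pool.Agent.R502.BL.good_ncard]
  exact h m hm

end Pool.Agent.Results.MP_42948a_nt.EveryModulusProportion
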