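import Pool.Agent.R516.QJ

/-!
Chowla's bound `p(c, m) < m ^ (1 + ε)` for individual moduli: for every large `m`, a proportion
`5 / 18 - ε` of the reduced classes in every interval of length at least `m ^ (1 - κ)`; if `m` has no prime
factor below `m ^ θ` (for instance, if `m` is prime), a proportion `5 / 18 - ε` of the classes in almost
every translate of every set of at least `m ^ (1 - κ)` classes.
-/

set_option autoImplicit false

namespace Pool.Agent.Results.MP_42948a_nt.FiveEighteenths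

open Finset

/-- (i) For every `ε > 0` there is `κ > 0` such that for every large `m`, every interval `(x, x + H]` with
`m ^ (1 - κ) ≤ H ≤ m` contains at least `(5 / 18 - ε) (φ(m) / m) H` integers `c` prime to `m` for which
some prime `p ≡ c (mod m)` is less than `m ^ (1 + ε)`.

(ii) For all `ε > 0` and `0 < θ ≤ 1` there is `κ > 0` such that for every large `m` all of whose prime
factors are at least `m ^ θ`, every set `A` of at least `m ^ (1 - κ)` classes, and all `b < m` outside a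
set of at most `m ^ (1 - κ)` elements, there are at least `(5 / 18 - ε) #A` elements `a` of `A` for which
`a + b` is prime to `m` and some prime `p ≡ a + b (mod m)` is less than `m ^ (1 + ε)`. -/
theorem result (ε : ℝ) (hε : 0 < ε) :
    (∃ κ : ℝ, 0 < κ ∧ ∃ m₀ : ℕ, ∀ m : ℕ, m₀ ≤ m → ∀ x H : ℕ, (m : ℝ) ^ (1 - κ) ≤ H → H ≤ m →
      (5 / 18 - ε) * ((Nat.totient m : ℝ) / m * H) ≤
        ({c : ℕ | x < c ∧ c ≤ x + H ∧ c.Coprime m ∧
          ∃ p : ℕ, p.Prime ∧ p ≡ c [MOD m] ∧ (p : ℝ) < (m : ℝ) ^ (1 + ε)}.ncard : ℝ)) ∧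
    (∀ θ : ℝ, 0 < θ → θ ≤ 1 → ∃ κ : ℝ, 0 < κ ∧ ∃ m₀ : ℕ, ∀ m : ℕ, m₀ ≤ m →
      (∀ p : ℕ, p.Prime → p ∣ m → (m : ℝ) ^ θ ≤ p) →
      ∀ A : Finset ℕ, (∀ a ∈ A, a < m) → (m : ℝ) ^ (1 - κ) ≤ A.card →
        ∃ E : Finset ℕ, (E.card : ℝ) ≤ (m : ℝ) ^ (1 - κ) ∧ ∀ b : ℕ, b < m → b ∉ E →
          (5 / 18 - ε) * A.card ≤
            ({a : ℕ | a ∈ A ∧ (a + b).Coprime m ∧
              ∃ p : ℕ, p.Prime ∧ p ≡ a + b [MOD m] ∧ (p : ℝ) < (m : ℝ) ^ (1 + ε)}.ncard : ℝ)) := by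
  classical
  refine ⟨?_, fun θ hθ hθ1 => ?_⟩
  · obtain ⟨κ, hκ, hB⟩ := Pool.Agent.R516.power_int5 ε hε
    obtain ⟨m₀, hm₀⟩ := Filter.eventually_atTop.1 hB
    refine ⟨κ, hκ, m₀, fun m hm x H hH hHm => ?_⟩
    refine (hm₀ m hm x H hH hHm).trans (le_of_eq ?_)
    rw [← Set.ncard_coe_finset]
    congr 2
    ext c
    rw [mem_coe, mem_filter, mem_Ioc, Set.mem_ofPred_eq, and_assoc]
    rfl
  · obtain ⟨κ, hκ, hB⟩ := Pool.Agent.R516.power_sets5 ε θ hε hθ hθ1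
    obtain ⟨m₀, hm₀⟩ := Filter.eventually_atTop.1 hB
    refine ⟨κ, hκ, m₀, fun m hm hp A hA hAc => ?_⟩
    obtain ⟨E, _, hE2, hE3⟩ := hm₀ m hm hp A hA hAc
    refine ⟨E, hE2, fun b hb hbE => ?_⟩
    refine (hE3 b (mem_range.2 hb) hbE).trans (le_of_eq ?_)
    rw [← Set.ncard_coe_finset]
    congr 2
    ext a
    rw [mem_coe, mem_filter, Set.mem_ofPred_eq]
    rfl

end Pool.Agent.Results.MP_42948a_nt.FiveEighteenths
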