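import Pool.Agent.R502.BL.Prop2

/-!
# Chowla's conjecture for many classes of prime moduli: the proportion for the exponent `1 + κ`, `κ > 1/2`

Proof: the prime number theorem and the Brun-Titchmarsh inequality with `log (x / q ^ (1/4))` for all but few classes
(Burgess' estimate).
From Mathlib: `[MOD q]`: congruence modulo `q`; `Set.ncard`: number of elements.
-/

set_option autoImplicit false

namespace Pool.Agent.Results.MP_42948a_nt.PrimeModuliProportion

/-- For all `κ > 1/2` and `ε > 0`, and every large prime `q`: at least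
`((3 + 4 κ) / (8 (1 + κ)) - ε) (q - 1)` of the reduced classes `a` modulo `q` contain a prime `p < q ^ (1 + κ)`
(thus at least `(7/16 - ε) (q - 1)` classes a prime `p < q ^ 2`). -/
theorem result (κ ε : ℝ) (hκ : 1 / 2 < κ) (hε : 0 < ε) : ∃ q₀ : ℕ, ∀ q : ℕ, q₀ ≤ q → q.Prime →
    ((3 + 4 * κ) / (8 * (1 + κ)) - ε) * ((q : ℝ) - 1) ≤
      ({a : ℕ | a < q ∧ a.Coprime q ∧
        ∃ p : ℕ, p.Prime ∧ p ≡ a [MOD q] ∧ (p : ℝ) < (q : ℝ) ^ (1 + κ)}.ncard : ℝ) := by
  obtain ⟨q₀, h⟩ := Filter.eventually_atTop.1 (Pool.Agent.R502.BL.prop_prime κ ε hκ hε)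
  refine ⟨q₀, fun q hq hqp => ?_⟩
  rw [Pool.Agent.R502.BL.good_ncard]
  exact h q hq hqp

end Pool.Agent.Results.MP_42948a_nt.PrimeModuliProportion
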