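import Pool.Agent.R502.FG.Fin

set_option autoImplicit false

/-! # Every modulus: a positive proportion of the classes contain two primes up to `lam φ(q) log q`, `lam > 1/2` -/

namespace Pool.Agent.Results.MP_42948a_nt.TwoSmallPrimesProportion

open Finset

/-- For every `lam > 1/2` there are `c > 0` and `q₀` such that for EVERY modulus `q ≥ q₀`, at least `c φ(q)` of the
reduced residue classes modulo `q` contain two primes up to `lam φ(q) log q`. -/
theorem result : ∀ lam : ℝ, 1 / 2 < lam → ∃ c : ℝ, 0 < c ∧ ∃ q₀ : ℕ, ∀ q : ℕ, q₀ ≤ q →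
    c * Nat.totient q ≤ ({a : ℕ | a < q ∧ a.Coprime q ∧ ∃ p₁ p₂ : ℕ, p₁.Prime ∧ p₂.Prime ∧ p₁ < p₂ ∧
      p₁ ≡ a [MOD q] ∧ p₂ ≡ a [MOD q] ∧ (p₂ : ℝ) ≤ lam * (Nat.totient q * Real.log q)}.ncard : ℝ) := by
  classical
  intro lam hlam
  obtain ⟨c, hc, h⟩ := Pool.Agent.R502.FG.two_primes lam hlam
  obtain ⟨q₀, hq₀⟩ := Filter.eventually_atTop.1 h
  refine ⟨c, hc, q₀, fun q hq => (hq₀ q hq).trans (le_of_eq ?_)⟩
  rw [← Set.ncard_coe_finset]
  congr 2
  ext a
  unfold Pool.Agent.R502.FG.Two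
  rw [mem_coe, mem_filter, mem_range]
  rfl

end Pool.Agent.Results.MP_42948a_nt.TwoSmallPrimesProportion
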